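import Pool.Agent.Lib.P4f18dfZ.Zero

/-!
# V.Bomb: Stepanov's method in Bombieri's form for `f(x)^((Q^2-1)/d) = w`

PROOF.  `Q = p^μ`, `q = Q^2 = card K`, `m = natDegree f`, `G = f^u`, `(q-1)/d = u (Q+1)`.  If no `x` is in the set there is nothing to prove (`w ≠ 0`).  Choose `x₀ ∈ K` with
`f(x₀) ≠ 0` (`m < q`), `t = X - C x₀`, `A = u - m`, `J = u + m`.  For `α : Fin d × Fin J × Fin (A+1) → K` put `a_ij = ∑_l α_ijl X^l`,
`B = ∑_(i,j) a_ij t^(Q j) G^i`, `C = ∑_(i,j) w^i a_ij^Q t^j G^(d-1-i)`.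
(1) `a_ij^Q = ∑_l α_ijl^Q X^(Q l)` (`sum_pow_char_pow`), so with `β = α^Q` (`α ↦ α^Q` is a bijection of `K`) `C` is a linear function of `β`, of degree `≤ Q A + (J-1) + (d-1) m u`; the
number of unknowns `(A+1) J d = (u-m+1)(u+m) d` is larger than `Q A + J + (d-1) m u` (`d u = Q - 1`, `u ≥ d m`, `d ≥ 2`, `m ≥ 1`), so there is `α ≠ 0` with `C = 0`.
(2) `B ≠ 0`: let `j₀` be the least `j` with `a_ij ≠ 0` for some `i`: `B = t^(Q j₀) (∑_i a_(i j₀) G^i + t^Q (...))`, so `B = 0` contradicts `zero_est`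
(`d (A + m) = d u < Q`).
(3) For `x` in the set (`x^q = x`, `G(x)^(Q+1) = w`, `f(x) ≠ 0`): `G(x)^(d-1) B(x)^Q = ∑ a_ij(x)^Q (x - x₀)^(q j) G(x)^(Q i + d - 1) = C(x) = 0` as `(x-x₀)^q = x - x₀` and
`G^(Q i + d - 1) = w^i G^(d-1-i)`.  So `B(x) = 0`, and the number of `x` is `≤ natDegree B ≤ A + Q (J-1) + (d-1) m u ≤ Q u + 2 m Q`.
-/

set_option autoImplicit false

open Polynomial

namespace Pool.Agent.P4f18dfZ

namespace BombAux

/-- more unknowns than equations -/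
lemma count_pos {d u m Q A J N : ℕ} (hd : 2 ≤ d) (hm : 1 ≤ m) (hu : d * u + 1 = Q)
    (hmu : d * m ≤ u) (hA : A + m = u) (hJ : J = u + m) (hN : N = Q * A + J + (d - 1) * m * u) :
    N < d * (J * (A + 1)) := by
  obtain ⟨e, rfl⟩ : ∃ e, d = e + 2 := ⟨d - 2, by omega⟩
  obtain ⟨v, hv⟩ : ∃ v, u = (e + 2) * m + v := ⟨u - (e + 2) * m, by omega⟩
  have hA' : A = (e + 1) * m + v := by
    have : (e + 2) * m = (e + 1) * m + m := by ring
    omega
  have he : e + 2 - 1 = e + 1 := by omega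
  rw [he] at hN
  have hpos : 0 < m * (v + (e + 2)) := by positivity
  have key : (e + 2) * (J * (A + 1)) = N + e * u + m * (v + (e + 2)) := by
    rw [hN, ← hu, hJ, hA', hv]
    ring
  rw [key]
  omega

/-- a nontrivial relation between many polynomials of small degree -/
lemma relation {K ι : Type*} [Field K] [Fintype ι] (N : ℕ) (g : ι → K[X])
    (hg : ∀ z, (g z).natDegree < N) (hN : N < Fintype.card ι) :
    ∃ β : ι → K, (∃ z, β z ≠ 0) ∧ ∑ z, C (β z) * g z = 0 := by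
  obtain ⟨Ψ, hΨ⟩ : ∃ Ψ : (ι → K) →ₗ[K] (Fin N → K), ∀ β n, Ψ β n = ∑ z, β z * (g z).coeff n := by
    refine ⟨{ toFun := fun β n => ∑ z, β z * (g z).coeff n, map_add' := ?_, map_smul' := ?_ },
      fun β n => rfl⟩
    · intro β γ
      funext n
      simp only [Pi.add_apply, add_mul, Finset.sum_add_distrib]
    · intro c β
      funext n
      simp only [Pi.smul_apply, smul_eq_mul, RingHom.id_apply, Finset.mul_sum, mul_assoc]
  have hker : LinearMap.ker Ψ ≠ ⊥ := by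
    refine LinearMap.ker_ne_bot_of_finrank_lt ?_
    rw [Module.finrank_fintype_fun_eq_card, Module.finrank_fintype_fun_eq_card, Fintype.card_fin]
    exact hN
  obtain ⟨β, hβ, hβ0⟩ := Submodule.exists_mem_ne_zero_of_ne_bot hker
  refine ⟨β, ?_, ?_⟩
  · by_contra hcon
    push Not at hcon
    exact hβ0 (funext hcon)
  · ext n
    rw [Polynomial.finsetSum_coeff, Polynomial.coeff_zero]
    simp only [Polynomial.coeff_C_mul]
    by_cases hn : n < N
    · have := congrFun (LinearMap.mem_ker.1 hβ) ⟨n, hn⟩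
      rw [hΨ] at this
      exact this
    · refine Finset.sum_eq_zero fun z _ => ?_
      rw [Polynomial.coeff_eq_zero_of_natDegree_lt (by have := hg z; omega), mul_zero]

end BombAux

open BombAux

open Classical in
theorem bomb {K : Type*} [Field K] [Fintype K] {p μ : ℕ} [Fact p.Prime] [CharP K p]
    (hK : Fintype.card K = (p ^ μ) ^ 2) {d u : ℕ} (hd : 2 ≤ d) (hu : d * u + 1 = p ^ μ) {ζ : K}
    (hζ : IsPrimitiveRoot ζ d) {f : K[X]} (hNP : NP d f) (hm : 1 ≤ f.natDegree)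
    (hmu : d * f.natDegree ≤ u) {w : K} (hw : w ≠ 0) :
    ((Finset.univ.filter (fun x : K => f.eval x ^ (((p ^ μ) ^ 2 - 1) / d) = w)).card) ≤
      p ^ μ * u + 2 * f.natDegree * p ^ μ := by
  obtain ⟨Q, hQ⟩ : ∃ Q : ℕ, Q = p ^ μ := ⟨_, rfl⟩
  obtain ⟨m, hm'⟩ : ∃ m : ℕ, m = f.natDegree := ⟨_, rfl⟩
  rw [← hQ] at hK hu ⊢
  rw [← hm'] at hm hmu ⊢
  have hQ1 : 1 ≤ Q := by omega
  have hmu1 : m ≤ u := le_trans (Nat.le_mul_of_pos_left m (by omega)) hmu
  have hf0 : f ≠ 0 := by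
    rintro rfl
    rw [natDegree_zero] at hm'
    omega
  -- the exponent
  have hexp : (Q ^ 2 - 1) / d = u * (Q + 1) := by
    have h1 : Q ^ 2 - 1 = d * (u * (Q + 1)) := by
      have h2 : Q ^ 2 = d * (u * (Q + 1)) + 1 := by
        rw [← hu]
        ring
      omega
    rw [h1, Nat.mul_div_cancel_left _ (by omega)]
  rw [hexp]
  -- a point where `f` does not vanish
  obtain ⟨x₀, hx₀⟩ : ∃ x₀ : K, f.eval x₀ ≠ 0 := by
    by_contra hcon
    push Not at hcon
    have h1 : (Finset.univ : Finset K) ⊆ f.roots.toFinset := by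
      intro x _
      rw [Multiset.mem_toFinset, mem_roots hf0]
      exact hcon x
    have h2 := (Finset.card_le_card h1).trans ((Multiset.toFinset_card_le _).trans (card_roots' f))
    rw [Finset.card_univ, hK, ← hm'] at h2
    have h3 : u < Q := by
      rw [← hu]
      nlinarith
    nlinarith
  obtain ⟨A, hA⟩ : ∃ A : ℕ, A + m = u := ⟨u - m, by omega⟩
  obtain ⟨J, hJ⟩ : ∃ J : ℕ, J = u + m := ⟨_, rfl⟩
  obtain ⟨N, hN⟩ : ∃ N : ℕ, N = Q * A + J + (d - 1) * m * u := ⟨_, rfl⟩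
  have hJ1 : 1 ≤ J := by omega
  obtain ⟨G, hG⟩ : ∃ G : K[X], G = f ^ u := ⟨_, rfl⟩
  have hGdeg : G.natDegree = u * m := by rw [hG, natDegree_pow, hm']
  obtain ⟨t, ht⟩ : ∃ t : K[X], t = X - C x₀ := ⟨_, rfl⟩
  have htdeg : t.natDegree = 1 := by rw [ht, natDegree_X_sub_C]
  have ht0 : t ≠ 0 := by rw [ht]; exact X_sub_C_ne_zero x₀
  -- the linear relation
  obtain ⟨g, hg⟩ : ∃ g : Fin d × Fin J × Fin (A + 1) → K[X], g = fun z =>
    C (w ^ (z.1 : ℕ)) * X ^ (Q * (z.2.2 : ℕ)) * t ^ (z.2.1 : ℕ) * G ^ (d - 1 - (z.1 : ℕ)) := ⟨_, rfl⟩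
  obtain ⟨β, ⟨z₀, hz₀⟩, hβ⟩ := relation N g (by
    intro z
    rw [hg]
    simp only
    have h1 : (C (w ^ (z.1 : ℕ)) * X ^ (Q * (z.2.2 : ℕ)) * t ^ (z.2.1 : ℕ) *
        G ^ (d - 1 - (z.1 : ℕ))).natDegree ≤
        Q * (z.2.2 : ℕ) + (z.2.1 : ℕ) + (d - 1 - (z.1 : ℕ)) * (u * m) := by
      refine natDegree_mul_le.trans (Nat.add_le_add (natDegree_mul_le.trans (Nat.add_le_add
        ((natDegree_C_mul_le _ _).trans (natDegree_X_pow_le _)) ?_)) ?_)
      · rw [natDegree_pow, htdeg, mul_one]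
      · rw [natDegree_pow, hGdeg]
    have h2 : (z.2.1 : ℕ) < J := z.2.1.2
    have h3 : (z.2.2 : ℕ) ≤ A := Nat.lt_succ_iff.1 z.2.2.2
    have h4 : Q * (z.2.2 : ℕ) ≤ Q * A := Nat.mul_le_mul_left _ h3
    have h5 : (d - 1 - (z.1 : ℕ)) * (u * m) ≤ (d - 1) * (u * m) :=
      Nat.mul_le_mul_right _ (Nat.sub_le _ _)
    have h6 : (d - 1) * (u * m) = (d - 1) * m * u := by ring
    omega) (by
    rw [Fintype.card_prod, Fintype.card_prod, Fintype.card_fin, Fintype.card_fin, Fintype.card_fin]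
    exact count_pos hd hm hu hmu hA hJ hN)
  -- the coefficients
  obtain ⟨α, hα⟩ : ∃ α : Fin d × Fin J × Fin (A + 1) → K, α = fun z => β z ^ Q := ⟨_, rfl⟩
  have hαQ : ∀ z, α z ^ Q = β z := by
    intro z
    rw [hα]
    simp only
    rw [← pow_mul, ← pow_two, ← hK]
    exact FiniteField.pow_card (β z)
  obtain ⟨a, ha⟩ : ∃ a : Fin d → Fin J → K[X], a = fun i j =>
    ∑ l : Fin (A + 1), C (α (i, j, l)) * X ^ (l : ℕ) := ⟨_, rfl⟩
  have hadeg : ∀ i j, (a i j).natDegree ≤ A := by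
    intro i j
    rw [ha]
    refine natDegree_sum_le_of_forall_le _ _ fun l _ => ?_
    exact ((natDegree_C_mul_le _ _).trans (natDegree_X_pow_le _)).trans (Nat.lt_succ_iff.1 l.2)
  have hacoeff : ∀ i j (l : Fin (A + 1)), (a i j).coeff l = α (i, j, l) := by
    intro i j l
    rw [ha]
    simp only
    rw [finsetSum_coeff]
    simp only [coeff_C_mul, coeff_X_pow]
    rw [Finset.sum_eq_single l]
    · rw [if_pos rfl, mul_one]
    · intro l' _ hne
      rw [if_neg, mul_zero]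
      intro h
      exact hne (Fin.ext h.symm)
    · intro h
      exact absurd (Finset.mem_univ l) h
  obtain ⟨h, hh⟩ : ∃ h : Fin J → K[X], h = fun j => ∑ i : Fin d, a i j * G ^ (i : ℕ) := ⟨_, rfl⟩
  obtain ⟨B, hB⟩ : ∃ B : K[X], B = ∑ j : Fin J, t ^ (Q * (j : ℕ)) * h j := ⟨_, rfl⟩
  -- `B ≠ 0`
  have hB0 : B ≠ 0 := by
    intro hBz
    obtain ⟨s, hs⟩ : ∃ s : Finset (Fin J), s = Finset.univ.filter (fun j => ∃ i, a i j ≠ 0) :=
      ⟨_, rfl⟩
    have hsne : s.Nonempty := by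
      refine ⟨z₀.2.1, ?_⟩
      rw [hs, Finset.mem_filter]
      refine ⟨Finset.mem_univ _, z₀.1, fun hz => ?_⟩
      have h1 := hacoeff z₀.1 z₀.2.1 z₀.2.2
      rw [hz, coeff_zero] at h1
      have h2 := hαQ z₀
      have h3 : α z₀ = 0 := h1.symm
      rw [h3, zero_pow (by omega)] at h2
      exact hz₀ h2.symm
    obtain ⟨j₀, hj₀⟩ : ∃ j₀ : Fin J, j₀ = s.min' hsne := ⟨_, rfl⟩
    have hj₀s : j₀ ∈ s := by rw [hj₀]; exact s.min'_mem hsne
    have hj₀a : ∃ i, a i j₀ ≠ 0 := by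
      rw [hs, Finset.mem_filter] at hj₀s
      exact hj₀s.2
    have hlow : ∀ j, j < j₀ → h j = 0 := by
      intro j hj
      rw [hh]
      refine Finset.sum_eq_zero fun i _ => ?_
      by_contra hne
      have h1 : a i j ≠ 0 := by
        intro hz
        rw [hz, zero_mul] at hne
        exact hne rfl
      have h2 : j ∈ s := by
        rw [hs, Finset.mem_filter]
        exact ⟨Finset.mem_univ _, i, h1⟩
      have h3 : j₀ ≤ j := by
        rw [hj₀]
        exact s.min'_le j h2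
      exact absurd hj (not_lt.2 h3)
    have hrest : t ^ (Q * (j₀ : ℕ) + Q) ∣ ∑ j ∈ Finset.univ.erase j₀, t ^ (Q * (j : ℕ)) * h j := by
      refine Finset.dvd_sum fun j hj => ?_
      rcases lt_trichotomy j j₀ with h1 | h1 | h1
      · rw [hlow j h1, mul_zero]
        exact dvd_zero _
      · exact absurd h1 (Finset.mem_erase.1 hj).1
      · have h2 : (j₀ : ℕ) + 1 ≤ j := h1
        have h3 : Q * (j₀ : ℕ) + Q ≤ Q * (j : ℕ) := by
          calc Q * (j₀ : ℕ) + Q = Q * ((j₀ : ℕ) + 1) := by ring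
            _ ≤ Q * (j : ℕ) := Nat.mul_le_mul_left _ h2
        exact (pow_dvd_pow t h3).mul_right _
    have hsplit : t ^ (Q * (j₀ : ℕ)) * h j₀ +
        ∑ j ∈ Finset.univ.erase j₀, t ^ (Q * (j : ℕ)) * h j = 0 := by
      rw [Finset.add_sum_erase _ (fun j : Fin J => t ^ (Q * (j : ℕ)) * h j) (Finset.mem_univ j₀),
        ← hB, hBz]
    have hdvd : t ^ (Q * (j₀ : ℕ) + Q) ∣ t ^ (Q * (j₀ : ℕ)) * h j₀ := by
      rw [eq_neg_of_add_eq_zero_left hsplit]
      exact (dvd_neg).2 hrest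
    rw [pow_add] at hdvd
    have hdvd2 : t ^ Q ∣ h j₀ := (mul_dvd_mul_iff_left (pow_ne_zero _ ht0)).1 hdvd
    have hz := zero_est (K := K) (p := p) (μ := μ) (d := d) (u := u) (A := A) hd
      (by rw [← hQ]; exact hu) hζ hNP x₀ hx₀
      (by
        rw [← hQ, ← hm', hA, ← hu]
        exact Nat.lt_succ_self _)
      (fun i => a i j₀) (fun i => hadeg i j₀) hj₀a
    apply hz
    rw [← hQ, ← ht, ← hG]
    have : h j₀ = ∑ i : Fin d, a i j₀ * G ^ (i : ℕ) := by rw [hh]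
    rw [← this]
    exact hdvd2
  -- the points are roots of `B`
  have hroot : Finset.univ.filter (fun x : K => f.eval x ^ (u * (Q + 1)) = w) ⊆
      B.roots.toFinset := by
    intro x hx
    rw [Finset.mem_filter] at hx
    have hx2 := hx.2
    have hfx : f.eval x ≠ 0 := by
      intro h0
      rw [h0, zero_pow (by
        have : 0 < u * (Q + 1) := by
          have : 0 < u := by omega
          positivity
        omega)] at hx2
      exact hw hx2.symm
    obtain ⟨y, hy⟩ : ∃ y : K, y = G.eval x := ⟨_, rfl⟩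
    have hy0 : y ≠ 0 := by
      rw [hy, hG, eval_pow]
      exact pow_ne_zero _ hfx
    have hyw : y ^ (Q + 1) = w := by
      rw [hy, hG, eval_pow, ← pow_mul]
      exact hx2
    rw [Multiset.mem_toFinset, mem_roots hB0, IsRoot.def]
    -- `B(x)^Q y^(d-1) = 0`
    have hQQ : ∀ c : K, (c ^ Q) ^ Q = c := by
      intro c
      rw [← pow_mul, ← pow_two, ← hK]
      exact FiniteField.pow_card c
    have hev := congrArg (fun P => eval x P) hβ
    simp only [eval_zero] at hev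
    rw [eval_finsetSum, hg] at hev
    simp only [eval_mul, eval_C, eval_pow, eval_X] at hev
    have htx : eval x t = x - x₀ := by rw [ht, eval_sub, eval_X, eval_C]
    rw [← hy, htx] at hev
    have hBx : eval x B = ∑ j : Fin J, (x - x₀) ^ (Q * (j : ℕ)) *
        ∑ i : Fin d, (∑ l : Fin (A + 1), α (i, j, l) * x ^ (l : ℕ)) * y ^ (i : ℕ) := by
      rw [hB, eval_finsetSum, hh, ha]
      simp only [eval_mul, eval_pow, htx, eval_finsetSum, eval_C, eval_X, ← hy]
    have e1 : (eval x B) ^ Q = ∑ j : Fin J, ∑ i : Fin d, ∑ l : Fin (A + 1),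
        β (i, j, l) * x ^ (Q * (l : ℕ)) * (x - x₀) ^ (j : ℕ) * y ^ (Q * (i : ℕ)) := by
      rw [hBx, hQ, sum_pow_char_pow]
      refine Finset.sum_congr rfl fun j _ => ?_
      rw [mul_pow, sum_pow_char_pow, Finset.mul_sum]
      refine Finset.sum_congr rfl fun i _ => ?_
      rw [mul_pow, sum_pow_char_pow, Finset.sum_mul, Finset.mul_sum]
      refine Finset.sum_congr rfl fun l _ => ?_
      rw [← hQ, mul_pow, hαQ]
      have f1 : ((x - x₀) ^ (Q * (j : ℕ))) ^ Q = (x - x₀) ^ (j : ℕ) := by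
        calc ((x - x₀) ^ (Q * (j : ℕ))) ^ Q = (((x - x₀) ^ Q) ^ Q) ^ (j : ℕ) := by
              rw [← pow_mul, ← pow_mul, ← pow_mul]
              congr 1
              ring
          _ = (x - x₀) ^ (j : ℕ) := by rw [hQQ]
      have f2 : (x ^ (l : ℕ)) ^ Q = x ^ (Q * (l : ℕ)) := by rw [← pow_mul, mul_comm]
      have f3 : (y ^ (i : ℕ)) ^ Q = y ^ (Q * (i : ℕ)) := by rw [← pow_mul, mul_comm]
      rw [f1, f2, f3]
      ring
    have e2 : ∑ z : Fin d × Fin J × Fin (A + 1), β z * (w ^ (z.1 : ℕ) * x ^ (Q * (z.2.2 : ℕ)) *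
        (x - x₀) ^ (z.2.1 : ℕ) * y ^ (d - 1 - (z.1 : ℕ))) =
        ∑ j : Fin J, ∑ i : Fin d, ∑ l : Fin (A + 1), β (i, j, l) * (w ^ (i : ℕ) * x ^ (Q * (l : ℕ)) *
        (x - x₀) ^ (j : ℕ) * y ^ (d - 1 - (i : ℕ))) := by
      rw [Fintype.sum_prod_type, Finset.sum_congr rfl fun i _ => Fintype.sum_prod_type _,
        Finset.sum_comm]
    have hBQ : (eval x B) ^ Q * y ^ (d - 1) = 0 := by
      rw [← hev, e1, e2, Finset.sum_mul]
      refine Finset.sum_congr rfl fun j _ => ?_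
      rw [Finset.sum_mul]
      refine Finset.sum_congr rfl fun i _ => ?_
      rw [Finset.sum_mul]
      refine Finset.sum_congr rfl fun l _ => ?_
      have f4 : y ^ (Q * (i : ℕ)) * y ^ (d - 1) = w ^ (i : ℕ) * y ^ (d - 1 - (i : ℕ)) := by
        rw [← hyw, ← pow_mul, ← pow_add, ← pow_add]
        congr 1
        have := i.2
        have h1 : (Q + 1) * (i : ℕ) = Q * (i : ℕ) + i := by ring
        omega
      calc β (i, j, l) * x ^ (Q * (l : ℕ)) * (x - x₀) ^ (j : ℕ) * y ^ (Q * (i : ℕ)) * y ^ (d - 1) =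
            β (i, j, l) * x ^ (Q * (l : ℕ)) * (x - x₀) ^ (j : ℕ) *
              (y ^ (Q * (i : ℕ)) * y ^ (d - 1)) := by ring
        _ = _ := by
            rw [f4]
            ring
    have := (mul_eq_zero.1 hBQ).resolve_right (pow_ne_zero _ hy0)
    exact pow_eq_zero_iff (by omega) |>.1 this
  have hcard := Finset.card_le_card hroot
  have hBdeg : B.natDegree ≤ Q * (J - 1) + (A + (d - 1) * (u * m)) := by
    rw [hB]
    refine natDegree_sum_le_of_forall_le _ _ fun j _ => ?_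
    refine natDegree_mul_le.trans (Nat.add_le_add ?_ ?_)
    · rw [natDegree_pow, htdeg, mul_one]
      exact Nat.mul_le_mul_left _ (by have := j.2; omega)
    · rw [hh]
      refine natDegree_sum_le_of_forall_le _ _ fun i _ => ?_
      refine natDegree_mul_le.trans (Nat.add_le_add (hadeg i j) ?_)
      rw [natDegree_pow, hGdeg]
      exact Nat.mul_le_mul_right _ (by have := i.2; omega)
  refine hcard.trans ((Multiset.toFinset_card_le _).trans ((card_roots' B).trans (hBdeg.trans ?_)))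
  -- the arithmetic
  obtain ⟨e, he⟩ : ∃ e, d = e + 1 := ⟨d - 1, by omega⟩
  obtain ⟨J', hJ'⟩ : ∃ J', J = J' + 1 := ⟨J - 1, by omega⟩
  have h1 : d - 1 = e := by omega
  have h2 : J - 1 = J' := by omega
  rw [h1, h2]
  have h3 : J' + 1 = u + m := by omega
  have h4 : (e + 1) * u + 1 = Q := by rw [← he]; exact hu
  have h5 : e * (u * m) ≤ m * Q := by
    calc e * (u * m) = m * (e * u) := by ring
      _ ≤ m * Q := Nat.mul_le_mul_left _ (by rw [← h4]; nlinarith)
  have h6 : A ≤ Q := by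
    have : u ≤ Q := by rw [← h4]; nlinarith
    omega
  have h7 : Q * J' + Q = Q * (u + m) := by rw [← h3]; ring
  have h8 : Q * (u + m) = Q * u + m * Q := by ring
  have h9 : 2 * m * Q = m * Q + m * Q := by ring
  omega

end Pool.Agent.P4f18dfZ
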