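import Mathlib

/-!
# The L-function of a product of multiplicative characters modulo a prime: definitions
-/

set_option autoImplicit false

open Polynomial

namespace Pool.Agent.P4f18dfZ

/-- The monic polynomial `X^d + ∑ c_i X^i`. -/
noncomputable def mpoly (p d : ℕ) (c : Fin d → ZMod p) : (ZMod p)[X] :=
  X ^ d + ∑ i : Fin d, C (c i) * X ^ (i : ℕ)

open Classical in
/-- The finite set of monic polynomials of degree `d`. -/
noncomputable def mp (p d : ℕ) [Fact p.Prime] : Finset (ZMod p)[X] :=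
  (Finset.univ : Finset (Fin d → ZMod p)).image (mpoly p d)

/-- `∏_(s ∈ S) χ_s (h(s))` -/
noncomputable def Lam {p : ℕ} [Fact p.Prime] (S : Finset (ZMod p))
    (χ : ZMod p → MulChar (ZMod p) ℂ) (h : (ZMod p)[X]) : ℂ := ∏ s ∈ S, χ s (h.eval s)

/-- The coefficient of `T^d` in the L-function `∑ Lam(h) T^(deg h)`. -/
noncomputable def Ls {p : ℕ} [Fact p.Prime] (S : Finset (ZMod p))
    (χ : ZMod p → MulChar (ZMod p) ℂ) (d : ℕ) : ℂ := ∑ h ∈ mp p d, Lam S χ h

open Classical in
/-- The coefficient of `T^r` in the logarithmic derivative of the L-function. -/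
noncomputable def Kr {p : ℕ} [Fact p.Prime] (S : Finset (ZMod p))
    (χ : ZMod p → MulChar (ZMod p) ℂ) (r : ℕ) : ℂ :=
  ∑ n ∈ r.divisors, ∑ P ∈ (mp p n).filter (fun P => Irreducible P), (n : ℂ) * Lam S χ P ^ (r / n)

/-- The sum over the field with `p^r` elements. -/
noncomputable def KF (p r : ℕ) [Fact p.Prime] (S : Finset (ZMod p))
    (χ : ZMod p → MulChar (ZMod p) ℂ) : ℂ :=
  ∑ᶠ x : GaloisField p r, ∏ s ∈ S,
    χ s (Algebra.norm (ZMod p) (algebraMap (ZMod p) (GaloisField p r) s - x))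

/-- `Y^d - c f` is irreducible over `K(X)` (for all `c ≠ 0`, if `K` contains the `d`-th roots of unity). -/
def NP {K : Type*} [Field K] (d : ℕ) (f : K[X]) : Prop :=
  ∀ n : ℕ, 0 < n → n < d → ∃ s : K, ¬ d ∣ n * f.rootMultiplicity s

end Pool.Agent.P4f18dfZ
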