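import Pool.Agent.Lib.P4f18dfZ.Defs

/-!
# Z.Gen: all the characters are powers of one character `ψ` of order `d`, with exponents `e_s`, `gcd(e_s, d) = 1`

PROOF.  The group `MulChar (ZMod p) ℂ` is finite and cyclic (Mathlib: `MulChar.mulEquiv_units` / `IsCyclic (MulChar ...)`; or take a generator `g` of `(ZMod p)ˣ` and evaluate at `g`:
an injective homomorphism to `ℂˣ`; finite subgroups of the units of a field are cyclic).  `H` = the subgroup generated by the `χ_s`, `s ∈ S`; `ψ` a generator, `d = orderOf ψ = card H ≥ 2`,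
`χ_s = ψ^(e_s)` with `e_s` a natural number, `1 ≤ e_s < d` (as `χ_s ≠ 1`).  If `0 < n < d` and `d ∣ n e_s` for all `s ∈ S` then `χ_s^n = 1` for all `s`, so `ψ^n = 1`, a contradiction.
`d ∣ p - 1` as `ψ^(p-1) = 1` (Fermat).
-/

set_option autoImplicit false

open Polynomial

namespace Pool.Agent.P4f18dfZ

namespace GenAux

/-- The characters of `(ZMod p)ˣ` form a cyclic group. -/
lemma cyc (p : ℕ) [Fact p.Prime] : IsCyclic (MulChar (ZMod p) ℂ) := by
  obtain ⟨f⟩ := MulChar.mulEquiv_units (ZMod p) ℂ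
  exact isCyclic_of_injective f.toMonoidHom f.injective

/-- There are `p - 1` characters. -/
lemma card_char (p : ℕ) [Fact p.Prime] : Nat.card (MulChar (ZMod p) ℂ) = p - 1 := by
  rw [MulChar.card_eq_card_units_of_hasEnoughRootsOfUnity, Nat.card_eq_fintype_card,
    ZMod.card_units]

/-- The statement for a finite family of nontrivial elements of a finite cyclic group. -/
lemma grp {G ι : Type*} [CommGroup G] [Finite G] [IsCyclic G] {S : Finset ι} (hS : S.Nonempty)
    {χ : ι → G} (hχ : ∀ s ∈ S, χ s ≠ 1) :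
    ∃ (ψ : G) (d : ℕ) (e : ι → ℕ), 2 ≤ d ∧ d ∣ Nat.card G ∧ orderOf ψ = d ∧
      (∀ s ∈ S, 1 ≤ e s ∧ e s < d ∧ χ s = ψ ^ e s) ∧
      ∀ n : ℕ, 0 < n → n < d → ∃ s ∈ S, ¬ d ∣ n * e s := by
  obtain ⟨g, hg⟩ :=
    IsCyclic.exists_generator (α := (Subgroup.closure (χ '' (S : Set ι)) : Subgroup G))
  have hmem : ∀ s ∈ S, χ s ∈ Subgroup.closure (χ '' (S : Set ι)) := fun s hs =>
    Subgroup.subset_closure ⟨s, hs, rfl⟩
  have hd0 : 0 < orderOf (g : G) := orderOf_pos _
  have hpow : ∀ s ∈ S, ∃ k : ℕ, k < orderOf (g : G) ∧ χ s = (g : G) ^ k := by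
    intro s hs
    obtain ⟨k, hk⟩ := Subgroup.mem_zpowers_iff.mp (hg ⟨χ s, hmem s hs⟩)
    have hk' : (g : G) ^ k = χ s := by
      have := congrArg (Subtype.val) hk
      simpa using this
    obtain ⟨m, hm⟩ : ∃ m : ℕ, (m : ℤ) = k % (orderOf (g : G) : ℤ) :=
      ⟨(k % (orderOf (g : G) : ℤ)).toNat,
        Int.toNat_of_nonneg (Int.emod_nonneg _ (by exact_mod_cast hd0.ne'))⟩
    refine ⟨m, ?_, ?_⟩
    · have : (m : ℤ) < orderOf (g : G) := by
        rw [hm]; exact Int.emod_lt_of_pos _ (by exact_mod_cast hd0)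
      exact_mod_cast this
    · rw [← hk', ← zpow_natCast, hm, zpow_mod_orderOf]
  classical
  choose! e he1 he2 using hpow
  have he0 : ∀ s ∈ S, 1 ≤ e s := by
    intro s hs
    rcases Nat.eq_zero_or_pos (e s) with h | h
    · exact absurd (by rw [he2 s hs, h, pow_zero]) (hχ s hs)
    · exact h
  refine ⟨(g : G), orderOf (g : G), e, ?_, orderOf_dvd_natCard _, rfl,
    fun s hs => ⟨he0 s hs, he1 s hs, he2 s hs⟩, ?_⟩
  · obtain ⟨s, hs⟩ := hS
    have h1 := he0 s hs
    have h2 := he1 s hs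
    omega
  · intro n hn0 hnd
    by_contra hcon
    push Not at hcon
    have hone : ∀ s ∈ S, χ s ^ n = 1 := by
      intro s hs
      rw [he2 s hs, ← pow_mul, mul_comm]
      exact orderOf_dvd_iff_pow_eq_one.mp (hcon s hs)
    have hall : ∀ x ∈ Subgroup.closure (χ '' (S : Set ι)), x ^ n = 1 := by
      intro x hx
      induction hx using Subgroup.closure_induction with
      | mem x hx =>
        obtain ⟨s, hs, rfl⟩ := hx
        exact hone s hs
      | one => exact one_pow _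
      | mul x y _ _ h1 h2 => rw [mul_pow, h1, h2, one_mul]
      | inv x _ h1 => rw [inv_pow, h1, inv_one]
    have := orderOf_dvd_of_pow_eq_one (hall g g.2)
    have := Nat.le_of_dvd hn0 this
    omega

end GenAux

theorem gen {p : ℕ} [Fact p.Prime] {S : Finset (ZMod p)} (hS : S.Nonempty)
    {χ : ZMod p → MulChar (ZMod p) ℂ} (hχ : ∀ s ∈ S, χ s ≠ 1) :
    ∃ (ψ : MulChar (ZMod p) ℂ) (d : ℕ) (e : ZMod p → ℕ), 2 ≤ d ∧ d ∣ p - 1 ∧ orderOf ψ = d ∧
      (∀ s ∈ S, 1 ≤ e s ∧ e s < d ∧ χ s = ψ ^ e s) ∧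
      ∀ n : ℕ, 0 < n → n < d → ∃ s ∈ S, ¬ d ∣ n * e s := by
  have := GenAux.cyc p
  have h := GenAux.grp hS hχ
  rwa [GenAux.card_char p] at h

end Pool.Agent.P4f18dfZ
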