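import Pool.Agent.Lib.P4f18dfZ.Bomb
import Pool.Agent.Lib.P4f18dfZ.Gen

/-!
# Z.KfBound: the bound over the field with `p^(2 μ)` elements

PROOF.  `gen` gives `ψ, d, e`.  `K = GaloisField p (2 μ)`, `q = card K = Q^2`, `Q = p^μ`, `f = ∏_(s ∈ S) (C s - X)^(e s) ∈ K[X]`, `m = natDegree f = ∑ e s ≥ 1`,
`rootMultiplicity s f = e s`, so `NP d f`.  `d ∣ p - 1 ∣ Q - 1`, `u = (Q-1)/d`.  The product in `KF` is `ψ (N (f x))`, `N y = y^((q-1)/(p-1))`.  If `f x ≠ 0` it is a `d`-th root of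
unity `ω`.  The `x` with the same `ω` have the same `f(x)^((q-1)/d) = N(f x)^((p-1)/d)`: if `ψ r = 1` then `r^((p-1)/d) = 1`.  By `bomb` `N_ω ≤ B := Q u + 2 m Q` for each `ω`,
`∑_ω N_ω ≥ Q^2 - m`.  So `|KF| = |∑_ω ω (N_ω - B)| ≤ ∑_ω (B - N_ω) = d B - Q^2 + m ≤ 2 d m Q + m`.
-/

set_option autoImplicit false

open Polynomial

namespace Pool.Agent.P4f18dfZ

namespace KfAux

/-- the kernel of a character of order `d` -/
lemma ker_char {p : ℕ} [Fact p.Prime] {ψ : MulChar (ZMod p) ℂ} {d c : ℕ} (hψ : orderOf ψ = d)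
    (hc : d * c = p - 1) {r : ZMod p} (hr : r ≠ 0) (h1 : ψ r = 1) : r ^ c = 1 := by
  obtain ⟨g, hg⟩ := IsCyclic.exists_generator (α := (ZMod p)ˣ)
  obtain ⟨k, hk⟩ : ∃ k : ℕ, g ^ k = Units.mk0 r hr := by
    have h2 := hg (Units.mk0 r hr)
    rw [← mem_powers_iff_mem_zpowers] at h2
    exact h2
  have hk' : ((g : (ZMod p)ˣ) : ZMod p) ^ k = r := by
    rw [← Units.val_pow_eq_pow_val, hk, Units.val_mk0]
  have hψk : ψ ^ k = 1 := by
    ext a
    obtain ⟨j, hj⟩ : ∃ j : ℕ, g ^ j = a := by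
      have h2 := hg a
      rw [← mem_powers_iff_mem_zpowers] at h2
      exact h2
    rw [MulChar.one_apply_coe]
    rcases Nat.eq_zero_or_pos k with h0 | h0
    · rw [h0, pow_zero, MulChar.one_apply_coe]
    · rw [MulChar.pow_apply' _ h0.ne', ← hj, Units.val_pow_eq_pow_val, map_pow, ← pow_mul, mul_comm,
        pow_mul, ← map_pow, hk', h1, one_pow]
  have hdk : d ∣ k := by
    rw [← hψ]
    exact orderOf_dvd_of_pow_eq_one hψk
  obtain ⟨l, rfl⟩ := hdk
  have hgp : ((g : (ZMod p)ˣ) : ZMod p) ^ (p - 1) = 1 := by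
    have := ZMod.units_pow_card_sub_one_eq_one p g
    rw [← Units.val_pow_eq_pow_val, this, Units.val_one]
  rw [← hk', ← pow_mul]
  have : d * l * c = (p - 1) * l := by rw [← hc]; ring
  rw [this, pow_mul, hgp, one_pow]

/-- the polynomial -/
noncomputable def ff {p : ℕ} [Fact p.Prime] (K : Type*) [Field K] [Algebra (ZMod p) K]
    (S : Finset (ZMod p)) (e : ZMod p → ℕ) : K[X] :=
  ∏ s ∈ S, (C (algebraMap (ZMod p) K s) - X) ^ e s

lemma lin_ne {K : Type*} [Field K] (a : K) : (C a - X : K[X]) ≠ 0 := by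
  rw [← neg_sub]
  exact neg_ne_zero.2 (X_sub_C_ne_zero a)

lemma lin_deg {K : Type*} [Field K] (a : K) : (C a - X : K[X]).natDegree = 1 := by
  rw [← neg_sub, natDegree_neg, natDegree_X_sub_C]

lemma lin_roots {K : Type*} [Field K] (a : K) : (C a - X : K[X]).roots = {a} := by
  rw [← neg_sub, roots_neg, roots_X_sub_C]

lemma ff_ne {p : ℕ} [Fact p.Prime] (K : Type*) [Field K] [Algebra (ZMod p) K]
    (S : Finset (ZMod p)) (e : ZMod p → ℕ) : ff K S e ≠ 0 :=
  Finset.prod_ne_zero_iff.2 fun _ _ => pow_ne_zero _ (lin_ne _)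

lemma ff_deg {p : ℕ} [Fact p.Prime] (K : Type*) [Field K] [Algebra (ZMod p) K]
    (S : Finset (ZMod p)) (e : ZMod p → ℕ) : (ff K S e).natDegree = ∑ s ∈ S, e s := by
  unfold ff
  rw [natDegree_prod _ _ fun _ _ => pow_ne_zero _ (lin_ne _)]
  refine Finset.sum_congr rfl fun s _ => ?_
  rw [natDegree_pow, lin_deg, mul_one]

lemma ff_mult {p : ℕ} [Fact p.Prime] (K : Type*) [Field K] [Algebra (ZMod p) K]
    (S : Finset (ZMod p)) (e : ZMod p → ℕ) {s : ZMod p} (hs : s ∈ S) :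
    (ff K S e).rootMultiplicity (algebraMap (ZMod p) K s) = e s := by
  classical
  have hinj : Function.Injective (algebraMap (ZMod p) K) := (algebraMap (ZMod p) K).injective
  rw [← count_roots]
  unfold ff
  rw [roots_prod _ _ (ff_ne K S e), Multiset.count_bind]
  have h1 : ∀ t : ZMod p, Multiset.count (algebraMap (ZMod p) K s)
      ((C (algebraMap (ZMod p) K t) - X) ^ e t : K[X]).roots = if t = s then e s else 0 := by
    intro t
    rw [roots_pow, lin_roots, Multiset.count_nsmul, Multiset.count_singleton]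
    by_cases h : t = s
    · rw [h, if_pos rfl, if_pos rfl, mul_one]
    · rw [if_neg (fun h2 => h (hinj h2).symm), if_neg h, mul_zero]
  rw [Multiset.map_congr rfl fun t _ => h1 t]
  show ∑ t ∈ S, (if t = s then e s else 0) = e s
  rw [Finset.sum_ite_eq' S s (fun _ => e s), if_pos hs]

lemma ff_eval {p : ℕ} [Fact p.Prime] (K : Type*) [Field K] [Algebra (ZMod p) K]
    (S : Finset (ZMod p)) (e : ZMod p → ℕ) (x : K) :
    (ff K S e).eval x = ∏ s ∈ S, (algebraMap (ZMod p) K s - x) ^ e s := by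
  unfold ff
  rw [eval_prod]
  refine Finset.prod_congr rfl fun s _ => ?_
  rw [eval_pow, eval_sub, eval_C, eval_X]

/-- primitive roots of unity -/
lemma prim {K : Type*} [Field K] [Fintype K] {d : ℕ} (hd : d ∣ Fintype.card K - 1) :
    ∃ ζ : K, IsPrimitiveRoot ζ d := by
  classical
  obtain ⟨g, hg⟩ := IsCyclic.exists_ofOrder_eq_natCard (α := Kˣ)
  obtain ⟨n, hn⟩ := hd
  have hcard : Nat.card Kˣ = d * n := by
    rw [Nat.card_eq_fintype_card, Fintype.card_units, hn]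
  have hpos : 0 < d * n := by
    rw [← hcard]
    exact Nat.card_pos
  have hn0 : n ≠ 0 := by
    rintro rfl
    simp at hpos
  have h1 : orderOf (g ^ n) = d := by
    rw [orderOf_pow_of_dvd hn0 (by rw [hg, hcard]; exact dvd_mul_left n d), hg, hcard,
      Nat.mul_div_cancel _ (Nat.pos_of_ne_zero hn0)]
  refine ⟨((g ^ n : Kˣ) : K), ?_⟩
  rw [IsPrimitiveRoot.coe_units_iff, ← h1]
  exact IsPrimitiveRoot.orderOf _

end KfAux

open KfAux

theorem kf_bound {p : ℕ} [Fact p.Prime] {S : Finset (ZMod p)} (hS : S.Nonempty)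
    {χ : ZMod p → MulChar (ZMod p) ℂ} (hχ : ∀ s ∈ S, χ s ≠ 1) :
    ∃ (C : ℝ) (μ₀ : ℕ), ∀ μ : ℕ, μ₀ ≤ μ → ‖KF p (2 * μ) S χ‖ ≤ C * (p : ℝ) ^ μ := by
  classical
  have hp : p.Prime := Fact.out
  obtain ⟨ψ, d, e, hd2, hdp, hψ, he, hgcd⟩ := gen hS hχ
  obtain ⟨c, hc⟩ := hdp
  obtain ⟨m, hm⟩ : ∃ m : ℕ, m = ∑ s ∈ S, e s := ⟨_, rfl⟩
  have hm1 : 1 ≤ m := by
    obtain ⟨s, hs⟩ := hS
    rw [hm]
    exact (he s hs).1.trans (Finset.single_le_sum (f := e) (fun _ _ => Nat.zero_le _) hs)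
  refine ⟨2 * d * m + m, d * d * m + 1, fun μ hμ => ?_⟩
  letI : Fintype (GaloisField p (2 * μ)) := Fintype.ofFinite _
  obtain ⟨Q, hQ⟩ : ∃ Q : ℕ, Q = p ^ μ := ⟨_, rfl⟩
  have hQbig : d * d * m + 1 < Q := by
    have h1 : μ < 2 ^ μ := Nat.lt_two_pow_self
    have h2 : 2 ^ μ ≤ p ^ μ := Nat.pow_le_pow_left hp.two_le μ
    omega
  have hcard : Fintype.card (GaloisField p (2 * μ)) = Q ^ 2 := by
    rw [← Nat.card_eq_fintype_card, GaloisField.card p (2 * μ) (by omega), hQ, ← pow_mul, mul_comm]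
  -- `d u + 1 = Q`
  obtain ⟨v, hv⟩ : p - 1 ∣ Q - 1 := by
    have := Nat.sub_dvd_pow_sub_pow p 1 μ
    rw [one_pow] at this
    rw [hQ]
    exact this
  obtain ⟨u, hu⟩ : ∃ u : ℕ, u = c * v := ⟨_, rfl⟩
  have hduQ : d * u + 1 = Q := by
    have : d * u = Q - 1 := by
      rw [hv, hu, hc]
      ring
    omega
  have hdm : d * m ≤ u := by
    have h1 : d * (d * m) < d * u := by
      have : d * (d * m) = d * d * m := by ring
      omega
    exact (Nat.lt_of_mul_lt_mul_left h1).le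
  obtain ⟨f, hf⟩ : ∃ f : (GaloisField p (2 * μ))[X], f = ff (GaloisField p (2 * μ)) S e := ⟨_, rfl⟩
  have hfdeg : f.natDegree = m := by rw [hf, ff_deg, hm]
  have hf0 : f ≠ 0 := by rw [hf]; exact ff_ne _ _ _
  have hNP : NP d f := by
    intro n hn hnd
    obtain ⟨s, hs, hns⟩ := hgcd n hn hnd
    refine ⟨algebraMap (ZMod p) _ s, ?_⟩
    rw [hf, ff_mult _ _ _ hs]
    exact hns
  obtain ⟨ζ, hζ⟩ : ∃ ζ : GaloisField p (2 * μ), IsPrimitiveRoot ζ d := by
    refine prim ?_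
    rw [hcard]
    refine ⟨u * (Q + 1), ?_⟩
    have h2 : Q ^ 2 = d * (u * (Q + 1)) + 1 := by
      rw [← hduQ]
      ring
    omega
  -- the product is `ψ (N (f x))`
  obtain ⟨nu, hnu⟩ : ∃ nu : GaloisField p (2 * μ) → ℂ, nu = fun x =>
    ψ (Algebra.norm (ZMod p) (f.eval x)) := ⟨_, rfl⟩
  have hKF : KF p (2 * μ) S χ = ∑ x : GaloisField p (2 * μ), nu x := by
    unfold KF
    rw [finsum_eq_sum_of_fintype]
    refine Finset.sum_congr rfl fun x _ => ?_
    rw [hnu]
    simp only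
    rw [hf, ff_eval, map_prod, map_prod]
    refine Finset.prod_congr rfl fun s hs => ?_
    obtain ⟨h1, -, h3⟩ := he s hs
    rw [h3, MulChar.pow_apply' _ (by omega), map_pow, map_pow]
  -- the norm
  have hnorm : ∀ y : GaloisField p (2 * μ), y ^ ((Q ^ 2 - 1) / d) =
      algebraMap (ZMod p) (GaloisField p (2 * μ)) (Algebra.norm (ZMod p) y ^ c) := by
    intro y
    have h1 := FiniteField.algebraMap_norm_eq_pow (K := ZMod p) (K' := GaloisField p (2 * μ)) (x := y)
    rw [map_pow, h1, ← pow_mul, Nat.card_eq_fintype_card, hcard, Nat.card_zmod]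
    congr 1
    have h2 : Q ^ 2 - 1 = (p - 1) * (v * (Q + 1)) := by
      have h3 : Q ^ 2 - 1 = (Q - 1) * (Q + 1) := by
        have : Q = (Q - 1) + 1 := by omega
        obtain ⟨z, hz⟩ : ∃ z, z = Q - 1 := ⟨_, rfl⟩
        rw [← hz] at this ⊢
        rw [this]
        have h4 : (z + 1) ^ 2 = z * (z + 1 + 1) + 1 := by ring
        omega
      rw [h3, hv]
      ring
    have hp1 : 0 < p - 1 := by have := hp.two_le; omega
    rw [h2, Nat.mul_div_cancel_left _ hp1, hc]
    have h5 : d * c * (v * (Q + 1)) = d * (v * (Q + 1) * c) := by ring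
    rw [h5, Nat.mul_div_cancel_left _ (by omega)]
  have hzero : ∀ x, f.eval x = 0 → nu x = 0 := by
    intro x hx
    rw [hnu]
    simp only
    rw [hx, Algebra.norm_zero]
    exact MulChar.map_zero ψ
  have hnz : ∀ x, f.eval x ≠ 0 → Algebra.norm (ZMod p) (f.eval x) ≠ 0 := by
    intro x hx
    exact (Algebra.norm_ne_zero_iff).2 hx
  have hroot : ∀ x, f.eval x ≠ 0 → nu x ^ d = 1 := by
    intro x hx
    rw [hnu]
    simp only
    have h1 : ψ ^ d = 1 := by rw [← hψ]; exact pow_orderOf_eq_one ψ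
    rw [← MulChar.pow_apply' _ (by omega), h1]
    exact MulChar.one_apply (isUnit_iff_ne_zero.2 (hnz x hx))
  -- the roots of unity
  obtain ⟨ω, hω⟩ : ∃ ω : ℂ, IsPrimitiveRoot ω d := ⟨_, Complex.isPrimitiveRoot_exp d (by omega)⟩
  obtain ⟨W, hW⟩ : ∃ W : Finset ℂ, W = (Finset.range d).image (fun k => ω ^ k) := ⟨_, rfl⟩
  have hinjW : Set.InjOn (fun k : ℕ => ω ^ k) (Finset.range d) := by
    intro a ha b hb hab
    rw [Finset.coe_range, Set.mem_Iio] at ha hb
    exact hω.pow_inj ha hb hab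
  have hWcard : W.card = d := by
    rw [hW, Finset.card_image_of_injOn hinjW, Finset.card_range]
  have hWsum : ∑ z ∈ W, z = 0 := by
    rw [hW, Finset.sum_image hinjW]
    exact hω.geom_sum_eq_zero (by omega)
  haveI : NeZero d := ⟨by omega⟩
  have hWmem : ∀ z : ℂ, z ^ d = 1 → z ∈ W := by
    intro z hz
    obtain ⟨i, hi, hi2⟩ := hω.eq_pow_of_pow_eq_one hz
    rw [hW, Finset.mem_image]
    exact ⟨i, Finset.mem_range.2 hi, hi2⟩
  have hWnorm : ∀ z ∈ W, ‖z‖ = 1 := by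
    intro z hz
    rw [hW, Finset.mem_image] at hz
    obtain ⟨k, -, rfl⟩ := hz
    rw [norm_pow, hω.norm'_eq_one (by omega), one_pow]
  obtain ⟨G, hG⟩ : ∃ G : Finset (GaloisField p (2 * μ)),
    G = Finset.univ.filter (fun x => f.eval x ≠ 0) := ⟨_, rfl⟩
  obtain ⟨n, hn⟩ : ∃ n : ℂ → ℕ, n = fun z => (G.filter (fun x => nu x = z)).card := ⟨_, rfl⟩
  obtain ⟨B, hB⟩ : ∃ B : ℕ, B = Q * u + 2 * m * Q := ⟨_, rfl⟩
  -- the bound of the fibres
  have hfib : ∀ z, n z ≤ B := by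
    intro z
    rw [hn]
    simp only
    rcases (G.filter (fun x => nu x = z)).eq_empty_or_nonempty with h0 | ⟨x₁, hx₁⟩
    · rw [h0, Finset.card_empty]
      exact Nat.zero_le _
    · rw [Finset.mem_filter, hG, Finset.mem_filter] at hx₁
      obtain ⟨⟨-, hx₁f⟩, hx₁z⟩ := hx₁
      have hw0 : f.eval x₁ ^ ((Q ^ 2 - 1) / d) ≠ 0 := pow_ne_zero _ hx₁f
      have hb := bomb (K := GaloisField p (2 * μ)) (p := p) (μ := μ) (by rw [hcard, hQ]) hd2
        (by rw [← hQ]; exact hduQ) hζ hNP (by rw [hfdeg]; exact hm1) (by rw [hfdeg]; exact hdm) hw0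
      rw [hfdeg, ← hQ, ← hB] at hb
      refine le_trans (Finset.card_le_card ?_) hb
      intro x hx
      rw [Finset.mem_filter, hG, Finset.mem_filter] at hx
      obtain ⟨⟨-, hxf⟩, hxz⟩ := hx
      rw [Finset.mem_filter]
      refine ⟨Finset.mem_univ _, ?_⟩
      rw [hnorm, hnorm]
      congr 1
      have ha := hnz x hxf
      have hb' := hnz x₁ hx₁f
      have h1 : ψ (Algebra.norm (ZMod p) (f.eval x)) = ψ (Algebra.norm (ZMod p) (f.eval x₁)) := by
        have e1 : nu x = nu x₁ := by rw [hxz, hx₁z]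
        rw [hnu] at e1
        exact e1
      have h2 : ψ (Algebra.norm (ZMod p) (f.eval x) / Algebra.norm (ZMod p) (f.eval x₁)) = 1 := by
        have h3 : ψ (Algebra.norm (ZMod p) (f.eval x) / Algebra.norm (ZMod p) (f.eval x₁)) *
            ψ (Algebra.norm (ZMod p) (f.eval x₁)) = ψ (Algebra.norm (ZMod p) (f.eval x₁)) := by
          rw [← map_mul, div_mul_cancel₀ _ hb', h1]
        have h4 : ψ (Algebra.norm (ZMod p) (f.eval x₁)) ≠ 0 := by
          intro h5
          have h6 := hroot x₁ hx₁f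
          rw [hnu] at h6
          simp only at h6
          rw [h5, zero_pow (by omega)] at h6
          exact zero_ne_one h6
        exact (mul_eq_right₀ h4).1 h3
      have h3 := ker_char hψ hc.symm (div_ne_zero ha hb') h2
      rw [div_pow, div_eq_one_iff_eq (pow_ne_zero _ hb')] at h3
      exact h3
  -- the number of the points
  have hsum : ∑ z ∈ W, n z = G.card := by
    rw [hn]
    refine (Finset.card_eq_sum_card_fiberwise (f := nu) (t := W) fun x hx => ?_).symm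
    rw [Finset.mem_coe, hG, Finset.mem_filter] at hx
    exact Finset.mem_coe.2 (hWmem _ (hroot x hx.2))
  have hGcard : Q ^ 2 ≤ G.card + m := by
    have h1 : (Finset.univ.filter (fun x : GaloisField p (2 * μ) => ¬ f.eval x ≠ 0)).card ≤ m := by
      rw [← hfdeg]
      refine le_trans (Finset.card_le_card (t := f.roots.toFinset) ?_)
        ((Multiset.toFinset_card_le _).trans (card_roots' f))
      intro x hx
      rw [Finset.mem_filter, not_not] at hx
      rw [Multiset.mem_toFinset, mem_roots hf0]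
      exact hx.2
    have h2 := Finset.card_filter_add_card_filter_not (s := (Finset.univ :
      Finset (GaloisField p (2 * μ)))) (fun x => f.eval x ≠ 0)
    rw [Finset.card_univ, hcard, ← hG] at h2
    omega
  -- the sum over the fibres
  have hKF2 : KF p (2 * μ) S χ = ∑ z ∈ W, (n z : ℂ) * z := by
    rw [hKF]
    have h1 : ∑ x : GaloisField p (2 * μ), nu x = ∑ x ∈ G, nu x := by
      rw [hG, Finset.sum_filter]
      refine Finset.sum_congr rfl fun x _ => ?_
      by_cases hx : f.eval x = 0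
      · rw [if_neg (not_not.2 hx), hzero x hx]
      · rw [if_pos hx]
    rw [h1, ← Finset.sum_fiberwise_of_maps_to (t := W) (g := nu) (fun x hx => by
      rw [hG, Finset.mem_filter] at hx
      exact hWmem _ (hroot x hx.2))]
    refine Finset.sum_congr rfl fun z _ => ?_
    rw [Finset.sum_congr rfl (g := fun _ => z) (fun x hx => (Finset.mem_filter.1 hx).2),
      Finset.sum_const, nsmul_eq_mul, hn]
  have hKF3 : KF p (2 * μ) S χ = -∑ z ∈ W, (((B : ℝ) - n z : ℝ) : ℂ) * z := by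
    have h7 : ∑ z ∈ W, (((B : ℝ) - n z : ℝ) : ℂ) * z =
        (B : ℂ) * ∑ z ∈ W, z - ∑ z ∈ W, (n z : ℂ) * z := by
      rw [Finset.mul_sum, ← Finset.sum_sub_distrib]
      refine Finset.sum_congr rfl fun z _ => ?_
      push_cast
      ring
    rw [h7, hWsum, hKF2]
    ring
  rw [hKF3, norm_neg]
  refine (norm_sum_le _ _).trans ?_
  have h8 : ∀ z ∈ W, ‖(((B : ℝ) - n z : ℝ) : ℂ) * z‖ = (B : ℝ) - n z := by
    intro z hz
    have : (n z : ℝ) ≤ B := by exact_mod_cast hfib z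
    rw [norm_mul, Complex.norm_real, Real.norm_eq_abs, abs_of_nonneg (sub_nonneg.2 this),
      hWnorm z hz, mul_one]
  rw [Finset.sum_congr rfl h8, Finset.sum_sub_distrib, Finset.sum_const, hWcard, nsmul_eq_mul,
    ← Nat.cast_sum, hsum]
  have h9 : (Q : ℝ) ^ 2 ≤ G.card + m := by exact_mod_cast hGcard
  have h10 : (d : ℝ) * B = (Q : ℝ) * (Q - 1) + 2 * d * m * Q := by
    have h11 : (d : ℝ) * u + 1 = Q := by exact_mod_cast hduQ
    rw [hB]
    push_cast
    have h12 : (d : ℝ) * u = Q - 1 := by linarith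
    calc (d : ℝ) * (Q * u + 2 * m * Q) = Q * (d * u) + 2 * d * m * Q := by ring
      _ = _ := by rw [h12]
  have hQr : (1 : ℝ) ≤ Q := by
    have : 1 ≤ Q := by omega
    exact_mod_cast this
  have hm0 : (0 : ℝ) ≤ m := Nat.cast_nonneg _
  have hpQ : (p : ℝ) ^ μ = Q := by
    rw [hQ]
    push_cast
    rfl
  rw [h10, hpQ]
  nlinarith

end Pool.Agent.P4f18dfZ
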