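import Pool.Agent.Lib.P4f18dfZ.Defs

/-!
# Z.Kum: irreducibility of `Y^d - f` over `K(X)`

PROOF. Let `g` be a monic irreducible factor of `Y^d - f` of degree `n`. In an algebraic closure, all
roots `ρ` of `g` satisfy `ρ^d = f`, and so `b^d = f^n` for `b = (-1)^n g(0)`, the product of the
roots. By comparison of the multiplicities of the roots of `f` and of the numerator and the
denominator of `b`, `d` divides `n * mult_s(f)` for all `s`, and so `n = d` by `NP`.
-/

set_option autoImplicit false

open Polynomial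

namespace Pool.Agent.P4f18dfZ

namespace KumAux

/-- the constant coefficient of a factor of `Y^d - a` -/
theorem pow_of_dvd {F : Type*} [Field F] {d : ℕ} {a : F} {g : F[X]} (hg : g.Monic)
    (hdvd : g ∣ X ^ d - C a) :
    ((-1) ^ g.natDegree * g.coeff 0) ^ d = a ^ g.natDegree := by
  apply (algebraMap F (AlgebraicClosure F)).injective
  have hs : (g.map (algebraMap F (AlgebraicClosure F))).Splits := IsAlgClosed.splits _
  have hm : (g.map (algebraMap F (AlgebraicClosure F))).Monic := hg.map _
  have h0 := hs.coeff_zero_eq_prod_roots_of_monic hm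
  rw [coeff_map, natDegree_map] at h0
  have hcard : (g.map (algebraMap F (AlgebraicClosure F))).roots.card = g.natDegree := by
    rw [← hs.natDegree_eq_card_roots, natDegree_map]
  have hroot : ∀ ρ ∈ (g.map (algebraMap F (AlgebraicClosure F))).roots,
      ρ ^ d = algebraMap F (AlgebraicClosure F) a := by
    intro ρ hρ
    have h1 : (g.map (algebraMap F (AlgebraicClosure F))).IsRoot ρ := isRoot_of_mem_roots hρ
    have h2 : g.map (algebraMap F (AlgebraicClosure F)) ∣
        (X ^ d - C a : F[X]).map (algebraMap F (AlgebraicClosure F)) := Polynomial.map_dvd _ hdvd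
    have h3 := h1.dvd h2
    rw [IsRoot, Polynomial.map_sub, Polynomial.map_pow, map_X, map_C, eval_sub, eval_pow, eval_X,
      eval_C] at h3
    exact sub_eq_zero.1 h3
  have h1 : ((g.map (algebraMap F (AlgebraicClosure F))).roots.prod) ^ d =
      (algebraMap F (AlgebraicClosure F) a) ^ g.natDegree := by
    have h2 : ((g.map (algebraMap F (AlgebraicClosure F))).roots.prod) ^ d =
        ((g.map (algebraMap F (AlgebraicClosure F))).roots.map fun ρ => ρ ^ d).prod := by
      rw [Multiset.prod_map_pow, Multiset.map_id']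
    rw [h2, Multiset.map_congr rfl hroot, Multiset.map_const', Multiset.prod_replicate, hcard]
  rw [map_pow, map_mul, map_pow, map_neg, map_one, h0, map_pow, ← h1, ← mul_assoc, ← mul_pow,
    neg_one_mul, neg_neg, one_pow, one_mul]

/-- the multiplicities of the roots of a polynomial whose `n`-th power is a `d`-th power -/
theorem dvd_of_pow {K : Type*} [Field K] {d n : ℕ} {f : K[X]} (hf : f ≠ 0)
    {b : RatFunc K} (h : b ^ d = (algebraMap K[X] (RatFunc K) f) ^ n) (s : K) :
    d ∣ n * f.rootMultiplicity s := by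
  classical
  have hv : b.denom ≠ 0 := RatFunc.denom_ne_zero b
  have hv' : algebraMap K[X] (RatFunc K) b.denom ≠ 0 := by
    rw [Ne, map_eq_zero_iff _ (RatFunc.algebraMap_injective K)]
    exact hv
  have h4 : algebraMap K[X] (RatFunc K) b.num = b * algebraMap K[X] (RatFunc K) b.denom :=
    (div_eq_iff hv').1 (RatFunc.num_div_denom b)
  have h1 : b.num ^ d = f ^ n * b.denom ^ d := by
    apply RatFunc.algebraMap_injective K
    rw [map_pow, map_mul, map_pow, map_pow, ← h, h4, mul_pow]
  have h2 : (b.num ^ d).roots.count s = (f ^ n * b.denom ^ d).roots.count s := by rw [h1]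
  rw [roots_mul (mul_ne_zero (pow_ne_zero _ hf) (pow_ne_zero _ hv)), Multiset.count_add, roots_pow,
    roots_pow, roots_pow, Multiset.count_nsmul, Multiset.count_nsmul, Multiset.count_nsmul,
    count_roots, count_roots, count_roots] at h2
  have h3 : d ∣ n * f.rootMultiplicity s + d * b.denom.rootMultiplicity s := ⟨_, h2.symm⟩
  exact (Nat.dvd_add_left ⟨_, rfl⟩).1 h3

end KumAux

theorem kum {K : Type*} [Field K] {d : ℕ} (hd : 1 ≤ d) {ζ : K} (hζ : IsPrimitiveRoot ζ d)
    {f : K[X]} (hf : f ≠ 0) (hNP : NP d f) :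
    Irreducible ((X : (RatFunc K)[X]) ^ d - C (algebraMap K[X] (RatFunc K) f)) := by
  set a : RatFunc K := algebraMap K[X] (RatFunc K) f with ha
  have hmon : ((X : (RatFunc K)[X]) ^ d - C a).Monic := monic_X_pow_sub_C a (by omega)
  have hdeg : ((X : (RatFunc K)[X]) ^ d - C a).natDegree = d := natDegree_X_pow_sub_C
  obtain ⟨g, hg, hirr, hdvd⟩ := exists_monic_irreducible_factor ((X : (RatFunc K)[X]) ^ d - C a)
    (not_isUnit_of_natDegree_pos _ (by rw [hdeg]; omega))
  have hle : g.natDegree ≤ d := hdeg ▸ natDegree_le_of_dvd hdvd hmon.ne_zero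
  have hpos : 0 < g.natDegree := hirr.natDegree_pos
  rcases lt_or_eq_of_le hle with hlt | heq
  · exfalso
    obtain ⟨s, hs⟩ := hNP g.natDegree hpos hlt
    exact hs (KumAux.dvd_of_pow hf (KumAux.pow_of_dvd hg hdvd) s)
  · have h1 : (X : (RatFunc K)[X]) ^ d - C a = g :=
      eq_of_monic_of_dvd_of_natDegree_le hg hmon hdvd (by rw [hdeg, heq])
    rw [h1]
    exact hirr

end Pool.Agent.P4f18dfZ
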