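import Pool.Agent.Lib.P4f18dfZ.Defs

/-!
# V.Root: the inverse roots of the L-function

PROOF.  Let `ω_i` be the roots of the monic polynomial `∑ c_n T^(k-n)` of degree `k`. By Newton's
identities `S_r = - ∑ ω_i^r`. If some `|ω_i|² > P`, take by compactness arbitrarily large `μ` for
which all `(ω_i² / |ω_i|²)^μ` are close to `1`: then `|S_(2μ)| ≥ (1/2) max |ω_i|^(2μ)`, against the
hypothesis. So `|c_1| = |∑ ω_i| ≤ k √P`.
-/

set_option autoImplicit false

open Polynomial

namespace Pool.Agent.P4f18dfZ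

namespace RootAux

/-- the reciprocal polynomial -/
noncomputable def pol (c : ℕ → ℂ) (k : ℕ) : ℂ[X] :=
  ∑ n ∈ Finset.range (k + 1), C (c n) * X ^ (k - n)

lemma coeff_pol (c : ℕ → ℂ) (k : ℕ) {n : ℕ} (hn : n ≤ k) : (pol c k).coeff (k - n) = c n := by
  unfold pol
  rw [Polynomial.finsetSum_coeff, Finset.sum_eq_single n]
  · rw [coeff_C_mul, coeff_X_pow, if_pos rfl, mul_one]
  · intro m hm hmn
    rw [Finset.mem_range] at hm
    rw [coeff_C_mul, coeff_X_pow, if_neg (by omega), mul_zero]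
  · intro h
    exact absurd (Finset.mem_range.2 (by omega)) h

lemma natDegree_pol {c : ℕ → ℂ} (hc0 : c 0 = 1) (k : ℕ) : (pol c k).natDegree = k := by
  refine le_antisymm ?_ ?_
  · unfold pol
    refine natDegree_sum_le_of_forall_le _ _ fun n _ => ?_
    exact (natDegree_C_mul_X_pow_le _ _).trans (Nat.sub_le _ _)
  · refine le_natDegree_of_ne_zero ?_
    have h := coeff_pol c k (Nat.zero_le k)
    rw [Nat.sub_zero] at h
    rw [h, hc0]
    exact one_ne_zero

lemma leadingCoeff_pol {c : ℕ → ℂ} (hc0 : c 0 = 1) (k : ℕ) : (pol c k).leadingCoeff = 1 := by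
  have h := coeff_pol c k (Nat.zero_le k)
  rw [Nat.sub_zero] at h
  rw [leadingCoeff, natDegree_pol hc0, h, hc0]

/-- the coefficients are the elementary symmetric functions of the inverse roots -/
lemma exists_roots {c : ℕ → ℂ} (hc0 : c 0 = 1) {k : ℕ} (hck : ∀ n, k ≤ n → c n = 0) :
    ∃ ω : Fin k → ℂ, ∀ n, c n = (-1) ^ n * MvPolynomial.aeval ω (MvPolynomial.esymm (Fin k) ℂ n) := by
  have hcard : Multiset.card (pol c k).roots = k := by
    rw [IsAlgClosed.card_roots_eq_natDegree, natDegree_pol hc0]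
  obtain ⟨l, hl⟩ := Quot.exists_rep (pol c k).roots
  have hl' : (l : Multiset ℂ) = (pol c k).roots := hl
  have hlen : l.length = k := by
    rw [← hcard, ← hl', Multiset.coe_card]
  subst hlen
  refine ⟨l.get, fun n => ?_⟩
  rw [MvPolynomial.aeval_esymm_eq_multiset_esymm, Fin.univ_val_map, List.ofFn_get, hl']
  rcases le_or_gt n l.length with h | h
  · have h1 := coeff_eq_esymm_roots_of_card (p := pol c l.length)
      (by rw [hcard, natDegree_pol hc0]) (k := l.length - n)
      (by rw [natDegree_pol hc0]; exact Nat.sub_le _ _)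
    rw [coeff_pol c _ h, leadingCoeff_pol hc0, natDegree_pol hc0, one_mul] at h1
    rw [h1]
    have h2 : l.length - (l.length - n) = n := by omega
    rw [h2]
  · rw [hck n h.le, Multiset.esymm, Multiset.powersetCard_eq_empty]
    · simp
    · rw [hcard]
      exact h

/-- Newton's identities -/
lemma S_eq {c S : ℕ → ℂ} {k : ℕ} (hc0 : c 0 = 1) {ω : Fin k → ℂ}
    (hω : ∀ n, c n = (-1) ^ n * MvPolynomial.aeval ω (MvPolynomial.esymm (Fin k) ℂ n))
    (hN : ∀ d : ℕ, (d : ℂ) * c d = ∑ r ∈ Finset.Icc 1 d, S r * c (d - r)) (d : ℕ) (hd : 1 ≤ d) :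
    S d = - ∑ i, ω i ^ d := by
  induction d using Nat.strong_induction_on with
  | _ d ih =>
    have h1 := congrArg (MvPolynomial.aeval ω) (MvPolynomial.mul_esymm_eq_sum (Fin k) ℂ d)
    have h2 : (d : ℂ) * c d = - ∑ r ∈ Finset.Icc 1 d, (∑ i, ω i ^ r) * c (d - r) := by
      have h3 : (d : ℂ) * c d = (-1) ^ d * MvPolynomial.aeval ω
          ((d : MvPolynomial (Fin k) ℂ) * MvPolynomial.esymm (Fin k) ℂ d) := by
        rw [hω d, map_mul, map_natCast]
        ring
      rw [h3, h1, map_mul, map_pow, map_neg, map_one, map_sum, ← mul_assoc, ← pow_add,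
        show d + (d + 1) = 2 * d + 1 by ring, pow_succ, pow_mul, neg_one_sq, one_pow, one_mul,
        neg_one_mul, neg_inj]
      refine Finset.sum_bij' (fun a _ => a.2) (fun r _ => (d - r, r)) ?_ ?_ ?_ ?_ ?_
      · intro a ha
        rw [Finset.mem_filter, Finset.HasAntidiagonal.mem_antidiagonal] at ha
        rw [Finset.mem_Icc]
        omega
      · intro r hr
        rw [Finset.mem_Icc] at hr
        rw [Finset.mem_filter, Finset.HasAntidiagonal.mem_antidiagonal]
        constructor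
        · show d - r + r = d
          omega
        · show d - r < d
          omega
      · intro a ha
        rw [Finset.mem_filter, Finset.HasAntidiagonal.mem_antidiagonal] at ha
        ext
        · show d - a.2 = a.1
          omega
        · rfl
      · intro r hr
        rfl
      · intro a ha
        rw [Finset.mem_filter, Finset.HasAntidiagonal.mem_antidiagonal] at ha
        have e1 : d - a.2 = a.1 := by omega
        rw [e1, hω a.1, map_mul, map_mul, map_pow, map_neg, map_one, MvPolynomial.psum, map_sum]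
        simp only [map_pow, MvPolynomial.aeval_X]
        ring
    have h4 := hN d
    rw [h2] at h4
    obtain ⟨e, rfl⟩ : ∃ e, d = e + 1 := ⟨d - 1, by omega⟩
    rw [Finset.sum_Icc_succ_top (by omega), Finset.sum_Icc_succ_top (by omega), Nat.sub_self, hc0,
      mul_one, mul_one, neg_add] at h4
    have h5 : ∑ r ∈ Finset.Icc 1 e, S r * c (e + 1 - r) =
        - ∑ r ∈ Finset.Icc 1 e, (∑ i, ω i ^ r) * c (e + 1 - r) := by
      rw [← Finset.sum_neg_distrib]
      refine Finset.sum_congr rfl fun r hr => ?_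
      rw [Finset.mem_Icc] at hr
      rw [ih r (by omega) hr.1]
      ring
    rw [h5] at h4
    exact (add_left_cancel h4).symm

/-- simultaneous returns to `1` -/
lemma exists_return {k : ℕ} (u : Fin k → ℂ) (hu : ∀ i, ‖u i‖ = 1) (M : ℕ) :
    ∃ m : ℕ, M ≤ m ∧ ∀ i, ‖u i ^ m - 1‖ ≤ 1 / 2 := by
  set x : ℕ → (Fin k → ℂ) := fun m i => u i ^ m with hx
  have hxb : ∀ m, x m ∈ Metric.closedBall (0 : Fin k → ℂ) 1 := by
    intro m
    rw [mem_closedBall_zero_iff, pi_norm_le_iff_of_nonneg zero_le_one]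
    intro i
    simp only [hx, norm_pow, hu i, one_pow, le_refl]
  obtain ⟨a, _, φ, hφ, hlim⟩ := (isCompact_closedBall (0 : Fin k → ℂ) 1).tendsto_subseq hxb
  obtain ⟨N, hN⟩ := Metric.cauchySeq_iff.1 hlim.cauchySeq (1 / 2) (by norm_num)
  have h1 : φ N + M ≤ φ (N + M) := by
    clear hN
    induction M with
    | zero => simp
    | succ M ih =>
      have := hφ (show N + M < N + (M + 1) by omega)
      omega
  refine ⟨φ (N + M) - φ N, by omega, fun i => ?_⟩
  have h2 := hN (N + M) (by omega) N le_rfl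
  have h3 : dist ((x ∘ φ) (N + M) i) ((x ∘ φ) N i) < 1 / 2 := (dist_le_pi_dist _ _ i).trans_lt h2
  have h4 : (x ∘ φ) (N + M) i - (x ∘ φ) N i = u i ^ φ N * (u i ^ (φ (N + M) - φ N) - 1) := by
    simp only [hx, Function.comp_apply]
    rw [mul_sub, mul_one, ← pow_add]
    congr 2
    omega
  rw [dist_eq_norm, h4, norm_mul, norm_pow, hu i, one_pow, one_mul] at h3
  exact h3.le

/-- the growth of the power sums bounds every term -/
lemma norm_le_of_growth {k : ℕ} (β : Fin k → ℂ) {P : ℝ} (hP : 1 ≤ P) {C : ℝ} {μ₀ : ℕ}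
    (h : ∀ μ : ℕ, μ₀ ≤ μ → ‖∑ i, β i ^ μ‖ ≤ C * P ^ μ) (i₀ : Fin k) : ‖β i₀‖ ≤ P := by
  by_contra hlt
  rw [not_le] at hlt
  have hP0 : 0 < P := by linarith
  -- the unit vectors
  set u : Fin k → ℂ := fun i => if β i = 0 then 1 else β i / (‖β i‖ : ℂ) with hu
  have hu1 : ∀ i, ‖u i‖ = 1 := by
    intro i
    simp only [hu]
    split_ifs with hi
    · exact norm_one
    · rw [norm_div, Complex.norm_real, norm_norm, div_self (norm_ne_zero_iff.2 hi)]
  have hβ : ∀ i, β i = (‖β i‖ : ℂ) * u i := by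
    intro i
    simp only [hu]
    split_ifs with hi
    · rw [hi]
      simp
    · rw [mul_div_cancel₀]
      exact Complex.ofReal_ne_zero.2 (norm_ne_zero_iff.2 hi)
  have hgt : 1 < ‖β i₀‖ / P := (one_lt_div hP0).2 hlt
  obtain ⟨M, hM⟩ := ((tendsto_pow_atTop_atTop_of_one_lt hgt).eventually_gt_atTop
    (2 * C)).exists_forall_of_atTop
  obtain ⟨m, hm, hret⟩ := exists_return u hu1 (max M μ₀)
  have h1 := h m ((le_max_right _ _).trans hm)
  have h2 := hM m ((le_max_left _ _).trans hm)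
  have h3 : ∀ i, (1 / 2) * ‖β i‖ ^ m ≤ (β i ^ m).re := by
    intro i
    have e1 : β i ^ m = ((‖β i‖ ^ m : ℝ) : ℂ) * u i ^ m := by
      rw [hβ i, mul_pow]
      push_cast
      congr 2
      rw [norm_mul, Complex.norm_real, norm_norm, hu1, mul_one]
    have e2 : (1 / 2 : ℝ) ≤ (u i ^ m).re := by
      have e3 := (Complex.abs_re_le_norm (u i ^ m - 1)).trans (hret i)
      rw [Complex.sub_re, Complex.one_re] at e3
      have e4 := abs_le.1 e3
      linarith [e4.1]
    rw [e1, Complex.re_ofReal_mul]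
    have := mul_le_mul_of_nonneg_left e2 (pow_nonneg (norm_nonneg (β i)) m)
    linarith
  have h4 : (1 / 2) * ‖β i₀‖ ^ m ≤ ‖∑ i, β i ^ m‖ := by
    calc (1 / 2) * ‖β i₀‖ ^ m ≤ ∑ i, (1 / 2) * ‖β i‖ ^ m :=
          Finset.single_le_sum (f := fun i => (1 / 2) * ‖β i‖ ^ m)
            (fun i _ => by positivity) (Finset.mem_univ i₀)
      _ ≤ ∑ i, (β i ^ m).re := Finset.sum_le_sum fun i _ => h3 i
      _ = (∑ i, β i ^ m).re := (Complex.re_sum _ _).symm
      _ ≤ ‖∑ i, β i ^ m‖ := Complex.re_le_norm _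
  rw [div_pow, lt_div_iff₀ (pow_pos hP0 m)] at h2
  linarith

end RootAux

open RootAux

theorem root_bound {P : ℝ} (hP : 1 ≤ P) {c S : ℕ → ℂ} {k : ℕ} (hc0 : c 0 = 1)
    (hck : ∀ n, k ≤ n → c n = 0)
    (hN : ∀ d : ℕ, (d : ℂ) * c d = ∑ r ∈ Finset.Icc 1 d, S r * c (d - r)) {C : ℝ} {μ₀ : ℕ}
    (hS : ∀ μ : ℕ, μ₀ ≤ μ → ‖S (2 * μ)‖ ≤ C * P ^ μ) : ‖c 1‖ ≤ k * √P := by
  obtain ⟨ω, hω⟩ := exists_roots hc0 hck
  have hSe := S_eq hc0 hω hN
  have h1 : ∀ i, ‖ω i ^ 2‖ ≤ P := by
    refine norm_le_of_growth (fun i => ω i ^ 2) hP (C := C) (μ₀ := max μ₀ 1) fun μ hμ => ?_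
    have e1 := hS μ ((le_max_left _ _).trans hμ)
    have e2 : 1 ≤ μ := (le_max_right _ _).trans hμ
    rw [hSe (2 * μ) (by omega), norm_neg] at e1
    simp only [← pow_mul]
    exact e1
  have h2 : ∀ i, ‖ω i‖ ≤ √P := by
    intro i
    refine Real.le_sqrt_of_sq_le ?_
    rw [← norm_pow]
    exact h1 i
  have h3 : c 1 = - ∑ i, ω i := by
    have e1 := hN 1
    rw [Finset.Icc_self, Finset.sum_singleton, Nat.sub_self, hc0, mul_one, hSe 1 le_rfl] at e1
    simpa using e1
  rw [h3, norm_neg]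
  calc ‖∑ i, ω i‖ ≤ ∑ i, ‖ω i‖ := norm_sum_le _ _
    _ ≤ ∑ _i : Fin k, √P := Finset.sum_le_sum fun i _ => h2 i
    _ = k * √P := by rw [Finset.sum_const, Finset.card_univ, Fintype.card_fin, nsmul_eq_mul]

end Pool.Agent.P4f18dfZ
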