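import Pool.Agent.Lib.P4f18dfZ.Kum

/-!
# Z.Zero: the zero estimate

PROOF.  Put `t = X - C x₀`, `m = natDegree f`, `G = f^u`, `c₀ = f(x₀)^Q ≠ 0` (`Q = p^μ`).  `f^Q - C c₀ = (f - C f(x₀))^Q` is divisible by `t^Q`, so
`G^d f = f^Q ≡ c₀ (mod t^Q)`.  Put `y = f G^(d-1)`: `G y ≡ c₀`, `y^d = f (f G^d)^(d-1) ≡ c₀^(d-1) f = F`.  Suppose `t^Q ∣ h := ∑ a_i G^i`.  Then
`h y^(d-1) ≡ ∑ a_i c₀^i y^(d-1-i) = P_a(y)`.
SIEGEL: with `B = (d-1)(A+m)` there is `P_b ≠ 0` in `K[X][Y]` with coefficients of degree `≤ B` such that `P_a P_b = r₀ + (Y^d - F) q`.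
`r₀` has degree `≤ A+B+m = d(A+m) < Q` and is divisible by `t^Q`, so `r₀ = 0`.  But `Y^d - F` is irreducible over `K(X)` (`kum`): a contradiction.
-/

set_option autoImplicit false

open Polynomial

namespace Pool.Agent.P4f18dfZ

namespace ZeroAux

variable {K : Type*} [Field K]

/-- reduction modulo `Y^d - F` of a polynomial of degree `< 2d` -/
lemma red {d : ℕ} (hd : 1 ≤ d) (F : K[X]) (P : K[X][X]) (hP : ∀ k, 2 * d ≤ k → P.coeff k = 0)
    (h0 : ∀ n, n + 1 < d → P.coeff (n + 1) + F * P.coeff (n + 1 + d) = 0) :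
    P = C (P.coeff 0 + F * P.coeff d) + (X ^ d - C F) *
      ∑ n ∈ Finset.range d, monomial n (P.coeff (n + d)) := by
  have hq : ∀ k, (∑ n ∈ Finset.range d, monomial n (P.coeff (n + d)) : K[X][X]).coeff k =
      if k < d then P.coeff (k + d) else 0 := by
    intro k
    rw [finsetSum_coeff]
    simp only [coeff_monomial]
    rw [Finset.sum_ite_eq']
    simp only [Finset.mem_range]
  ext1 k
  rw [coeff_add, sub_mul, coeff_sub, coeff_X_pow_mul', coeff_C_mul, hq, hq, coeff_C]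
  by_cases hk : k < d
  · rw [if_neg (by omega : ¬ d ≤ k), if_pos hk]
    rcases Nat.eq_zero_or_pos k with rfl | hk0
    · rw [if_pos rfl, zero_add]; ring
    · rw [if_neg (by omega)]
      obtain ⟨n, rfl⟩ : ∃ n, k = n + 1 := ⟨k - 1, by omega⟩
      have := h0 n hk
      linear_combination this
  · rw [if_pos (by omega : d ≤ k), if_neg (by omega : ¬ k = 0), if_neg hk]
    by_cases hk2 : k - d < d
    · rw [if_pos hk2, Nat.sub_add_cancel (by omega)]; ring
    · rw [if_neg hk2, hP k (by omega)]; ring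

/-- the general polynomial `P_b` -/
noncomputable def Pb (d B : ℕ) : (Fin d × Fin (B + 1) → K) →ₗ[K] K[X][X] where
  toFun β := ∑ n : Fin d, ∑ l : Fin (B + 1), monomial (n : ℕ) (monomial (l : ℕ) (β (n, l)))
  map_add' β γ := by
    simp only [Pi.add_apply, map_add, Finset.sum_add_distrib]
  map_smul' c β := by
    simp only [Pi.smul_apply, RingHom.id_apply, Finset.smul_sum, smul_monomial]

lemma Pb_apply (d B : ℕ) (β : Fin d × Fin (B + 1) → K) :
    Pb d B β = ∑ n : Fin d, ∑ l : Fin (B + 1), monomial (n : ℕ) (monomial (l : ℕ) (β (n, l))) := rfl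

lemma Pb_coeff (d B : ℕ) (β : Fin d × Fin (B + 1) → K) (n : Fin d) :
    (Pb d B β).coeff n = ∑ l : Fin (B + 1), monomial (l : ℕ) (β (n, l)) := by
  rw [Pb_apply, finsetSum_coeff]
  rw [Finset.sum_eq_single n]
  · rw [finsetSum_coeff]
    refine Finset.sum_congr rfl fun l _ => ?_
    rw [coeff_monomial, if_pos rfl]
  · intro n' _ hn
    rw [finsetSum_coeff]
    refine Finset.sum_eq_zero fun l _ => ?_
    rw [coeff_monomial, if_neg]
    intro h
    exact hn (Fin.ext h)
  · intro h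
    exact absurd (Finset.mem_univ n) h

lemma Pb_coeff_ge (d B : ℕ) (β : Fin d × Fin (B + 1) → K) {k : ℕ} (hk : d ≤ k) :
    (Pb d B β).coeff k = 0 := by
  rw [Pb_apply, finsetSum_coeff]
  refine Finset.sum_eq_zero fun n _ => ?_
  rw [finsetSum_coeff]
  refine Finset.sum_eq_zero fun l _ => ?_
  rw [coeff_monomial, if_neg]
  have := n.2
  omega

lemma Pb_natDegree_coeff (d B : ℕ) (β : Fin d × Fin (B + 1) → K) (k : ℕ) :
    ((Pb d B β).coeff k).natDegree ≤ B := by
  rcases Nat.lt_or_ge k d with hk | hk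
  · have h1 := Pb_coeff d B β ⟨k, hk⟩
    simp only at h1
    rw [h1]
    refine natDegree_sum_le_of_forall_le _ _ fun l _ => ?_
    exact (natDegree_monomial_le _).trans (by have := l.2; omega)
  · rw [Pb_coeff_ge d B β hk]; simp

lemma Pb_ne_zero (d B : ℕ) {β : Fin d × Fin (B + 1) → K} (hβ : β ≠ 0) : Pb d B β ≠ 0 := by
  intro h
  apply hβ
  funext x
  obtain ⟨n, l⟩ := x
  have h1 := Pb_coeff d B β n
  rw [h, coeff_zero] at h1
  have h2 : (∑ l' : Fin (B + 1), monomial (l' : ℕ) (β (n, l')) : K[X]).coeff l = 0 := by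
    rw [← h1, coeff_zero]
  rw [finsetSum_coeff, Finset.sum_eq_single l] at h2
  · rw [coeff_monomial, if_pos rfl] at h2
    exact h2
  · intro l' _ hl
    rw [coeff_monomial, if_neg]
    intro h3
    exact hl (Fin.ext h3)
  · intro h3
    exact absurd (Finset.mem_univ l) h3

lemma natDegree_coeff_mul_le {P R : K[X][X]} {A B : ℕ} (hP : ∀ k, (P.coeff k).natDegree ≤ A)
    (hR : ∀ k, (R.coeff k).natDegree ≤ B) (k : ℕ) : ((P * R).coeff k).natDegree ≤ A + B := by
  rw [coeff_mul]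
  refine natDegree_sum_le_of_forall_le _ _ fun x _ => ?_
  exact natDegree_mul_le.trans (add_le_add (hP _) (hR _))

lemma coeff_mul_ge {P R : K[X][X]} {d : ℕ} (hP : ∀ k, d ≤ k → P.coeff k = 0)
    (hR : ∀ k, d ≤ k → R.coeff k = 0) {k : ℕ} (hk : 2 * d ≤ k) : (P * R).coeff k = 0 := by
  rw [coeff_mul]
  refine Finset.sum_eq_zero fun x hx => ?_
  rw [Finset.HasAntidiagonal.mem_antidiagonal] at hx
  rcases Nat.lt_or_ge x.1 d with h1 | h1
  · rw [hR x.2 (by omega), mul_zero]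
  · rw [hP x.1 h1, zero_mul]

/-- Siegel's lemma -/
lemma siegel {d A m : ℕ} (hd : 1 ≤ d) {F : K[X]} (hF : F.natDegree ≤ m) (P : K[X][X])
    (hPA : ∀ k, (P.coeff k).natDegree ≤ A) (hPd : ∀ k, d ≤ k → P.coeff k = 0) :
    ∃ R : K[X][X], R ≠ 0 ∧ (∀ k, d ≤ k → R.coeff k = 0) ∧
      (∀ k, (R.coeff k).natDegree ≤ (d - 1) * (A + m)) ∧
      ∀ n, n + 1 < d → (P * R).coeff (n + 1) + F * (P * R).coeff (n + 1 + d) = 0 := by
  set B := (d - 1) * (A + m) with hB
  set L : (Fin d × Fin (B + 1) → K) →ₗ[K] (Fin (d - 1) × Fin (A + B + m + 1) → K) :=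
    { toFun := fun β x => ((P * Pb d B β).coeff ((x.1 : ℕ) + 1) +
        F * (P * Pb d B β).coeff ((x.1 : ℕ) + 1 + d)).coeff (x.2 : ℕ)
      map_add' := by
        intro β γ
        funext x
        simp only [Pi.add_apply, map_add, mul_add, coeff_add]
        ring
      map_smul' := by
        intro c β
        funext x
        simp only [Pi.smul_apply, RingHom.id_apply, map_smul, mul_smul_comm, coeff_smul,
          coeff_add, smul_eq_mul]
        rw [mul_add] } with hL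
  have hker : LinearMap.ker L ≠ ⊥ := by
    apply LinearMap.ker_ne_bot_of_finrank_lt
    rw [Module.finrank_fintype_fun_eq_card, Module.finrank_fintype_fun_eq_card,
      Fintype.card_prod, Fintype.card_prod, Fintype.card_fin, Fintype.card_fin, Fintype.card_fin,
      Fintype.card_fin]
    obtain ⟨e, rfl⟩ : ∃ e, d = e + 1 := ⟨d - 1, by omega⟩
    rw [Nat.add_sub_cancel] at hB ⊢
    have h1 : e * (A + B + m + 1) = B + e * (B + 1) := by rw [hB]; ring
    rw [h1, add_mul, one_mul]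
    omega
  obtain ⟨β, hβ, hβ0⟩ := Submodule.exists_mem_ne_zero_of_ne_bot hker
  rw [LinearMap.mem_ker] at hβ
  refine ⟨Pb d B β, Pb_ne_zero d B hβ0, fun k hk => Pb_coeff_ge d B β hk,
    Pb_natDegree_coeff d B β, fun n hn => ?_⟩
  ext1 j
  rw [coeff_zero]
  rcases Nat.lt_or_ge j (A + B + m + 1) with hj | hj
  · have h2 := congrFun hβ (⟨n, by omega⟩, ⟨j, hj⟩)
    exact h2
  · apply coeff_eq_zero_of_natDegree_lt
    have h3 := natDegree_coeff_mul_le hPA (Pb_natDegree_coeff d B β) (n + 1)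
    have h4 := natDegree_coeff_mul_le hPA (Pb_natDegree_coeff d B β) (n + 1 + d)
    refine (natDegree_add_le _ _).trans_lt (max_lt (by omega) ?_)
    exact natDegree_mul_le.trans_lt (by omega)

end ZeroAux

open ZeroAux in
theorem zero_est {K : Type*} [Field K] {p μ : ℕ} [Fact p.Prime] [CharP K p] {d u A : ℕ}
    (hd : 2 ≤ d) (hu : d * u + 1 = p ^ μ) {ζ : K} (hζ : IsPrimitiveRoot ζ d) {f : K[X]}
    (hNP : NP d f) (x₀ : K) (hx₀ : f.eval x₀ ≠ 0) (hA : d * (A + f.natDegree) < p ^ μ)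
    (a : Fin d → K[X]) (hdeg : ∀ i, (a i).natDegree ≤ A) (ha : ∃ i, a i ≠ 0) :
    ¬ (X - C x₀) ^ (p ^ μ) ∣ ∑ i : Fin d, a i * (f ^ u) ^ (i : ℕ) := by
  intro hdvd
  set Q := p ^ μ with hQ
  set m := f.natDegree with hm
  set t : K[X] := X - C x₀ with ht
  set c₀ : K := f.eval x₀ ^ Q with hc₀
  have hc0 : c₀ ≠ 0 := pow_ne_zero _ hx₀
  have hf0 : f ≠ 0 := by rintro rfl; simp at hx₀
  -- `f^Q ≡ c₀`
  have h1 : t ^ Q ∣ f ^ Q - C c₀ := by
    have h2 : f ^ Q - C c₀ = (f - C (f.eval x₀)) ^ Q := by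
      rw [hQ, sub_pow_char_pow, hc₀, C_pow]
    rw [h2]
    exact pow_dvd_pow_of_dvd (X_sub_C_dvd_sub_C_eval) Q
  set y : K[X] := f * (f ^ u) ^ (d - 1) with hy
  obtain ⟨e, he⟩ : ∃ e, d = e + 1 := ⟨d - 1, by omega⟩
  have hde : d - 1 = e := by omega
  have hGy : f ^ u * y = f ^ Q := by
    rw [hy, hde, ← hu, he]
    rw [← pow_mul, ← pow_succ', ← pow_add]
    congr 1
    ring
  have hyd : y ^ d = f * (f ^ Q) ^ (d - 1) := by
    rw [hy, hde, ← hu, he]
    rw [← pow_mul, ← pow_succ', ← pow_mul, ← pow_mul, ← pow_succ']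
    congr 1
    ring
  set F : K[X] := C (c₀ ^ (d - 1)) * f with hF
  have hcd : c₀ ^ (d - 1) ≠ 0 := pow_ne_zero _ hc0
  have hF0 : F ≠ 0 := mul_ne_zero (C_ne_zero.2 hcd) hf0
  have hFm : F.natDegree ≤ m := by
    rw [hF, natDegree_C_mul hcd]
  have hydF : t ^ Q ∣ y ^ d - F := by
    have h2 : t ^ Q ∣ (f ^ Q) ^ (d - 1) - (C c₀) ^ (d - 1) := h1.trans (sub_dvd_pow_sub_pow _ _ _)
    have h3 : y ^ d - F = f * ((f ^ Q) ^ (d - 1) - (C c₀) ^ (d - 1)) := by
      rw [hyd, hF, C_pow]; ring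
    rw [h3]
    exact h2.mul_left f
  have hNPF : NP d F := by
    intro n hn hnd
    obtain ⟨s, hs⟩ := hNP n hn hnd
    refine ⟨s, ?_⟩
    have h4 : F.rootMultiplicity s = f.rootMultiplicity s := by
      rw [hF, rootMultiplicity_mul hF0, rootMultiplicity_C, zero_add]
    rw [h4]; exact hs
  -- the polynomial `P_a`
  set P : K[X][X] := ∑ i : Fin d, monomial (d - 1 - (i : ℕ)) (C (c₀ ^ (i : ℕ)) * a i) with hP
  have hPc : ∀ i₀ : Fin d, P.coeff (d - 1 - (i₀ : ℕ)) = C (c₀ ^ (i₀ : ℕ)) * a i₀ := by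
    intro i₀
    rw [hP, finsetSum_coeff, Finset.sum_eq_single i₀]
    · rw [coeff_monomial, if_pos rfl]
    · intro i _ hi
      rw [coeff_monomial, if_neg]
      intro h5
      apply hi
      apply Fin.ext
      have := i.2
      have := i₀.2
      omega
    · intro h5
      exact absurd (Finset.mem_univ i₀) h5
  have hPd : ∀ k, d ≤ k → P.coeff k = 0 := by
    intro k hk
    rw [hP, finsetSum_coeff]
    refine Finset.sum_eq_zero fun i _ => ?_
    rw [coeff_monomial, if_neg]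
    omega
  have hPA : ∀ k, (P.coeff k).natDegree ≤ A := by
    intro k
    rcases Nat.lt_or_ge k d with hk | hk
    · have h5 := hPc ⟨d - 1 - k, by omega⟩
      simp only at h5
      rw [show d - 1 - (d - 1 - k) = k by omega] at h5
      rw [h5]
      exact (natDegree_C_mul_le _ _).trans (hdeg _)
    · rw [hPd k hk]; simp
  have hP0 : P ≠ 0 := by
    obtain ⟨i₀, hi₀⟩ := ha
    intro h5
    have h6 := hPc i₀
    rw [h5, coeff_zero] at h6
    exact (mul_ne_zero (C_ne_zero.2 (pow_ne_zero _ hc0)) hi₀) h6.symm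
  have hPy : t ^ Q ∣ P.eval y := by
    have h6 : P.eval y = (∑ i : Fin d, a i * (f ^ u) ^ (i : ℕ)) * y ^ (d - 1) +
        ∑ i : Fin d, a i * y ^ (d - 1 - (i : ℕ)) * ((C c₀) ^ (i : ℕ) - (f ^ Q) ^ (i : ℕ)) := by
      rw [hP, eval_finsetSum, Finset.sum_mul, ← Finset.sum_add_distrib]
      refine Finset.sum_congr rfl fun i _ => ?_
      rw [eval_monomial, C_pow, ← hGy]
      have h7 : y ^ (d - 1) = y ^ (d - 1 - (i : ℕ)) * y ^ (i : ℕ) := by
        rw [← pow_add]; congr 1; have := i.2; omega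
      rw [h7, mul_pow]
      ring
    rw [h6]
    refine dvd_add (hdvd.mul_right _) (Finset.dvd_sum fun i _ => ?_)
    refine Dvd.dvd.mul_left ?_ _
    have h8 : t ^ Q ∣ C c₀ - f ^ Q := by
      rw [← neg_sub]; exact (dvd_neg).2 h1
    exact h8.trans (sub_dvd_pow_sub_pow _ _ _)
  -- Siegel
  obtain ⟨R, hR0, hRd, hRB, hrel⟩ := siegel (by omega : 1 ≤ d) hFm P hPA hPd
  have hPR2 : ∀ k, 2 * d ≤ k → (P * R).coeff k = 0 := fun k hk => coeff_mul_ge hPd hRd hk
  have hred := red (by omega : 1 ≤ d) F (P * R) hPR2 hrel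
  set r₀ : K[X] := (P * R).coeff 0 + F * (P * R).coeff d with hr₀
  set q : K[X][X] := ∑ n ∈ Finset.range d, monomial n ((P * R).coeff (n + d)) with hq
  have hr0d : t ^ Q ∣ r₀ := by
    have h9 := congrArg (eval y) hred
    rw [eval_mul, eval_add, eval_C, eval_mul, eval_sub, eval_pow, eval_X, eval_C] at h9
    have h10 : r₀ = P.eval y * R.eval y - (y ^ d - F) * q.eval y := by
      rw [h9]; ring
    rw [h10]
    exact dvd_sub (hPy.mul_right _) (hydF.mul_right _)
  have hr0deg : r₀.natDegree < (t ^ Q).natDegree := by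
    rw [natDegree_pow, ht, natDegree_X_sub_C, mul_one]
    have h11 := natDegree_coeff_mul_le hPA hRB 0
    have h12 := natDegree_coeff_mul_le hPA hRB d
    have h13 : A + (d - 1) * (A + m) + m = d * (A + m) := by
      rw [hde, he]; ring
    rw [hr₀]
    refine (natDegree_add_le _ _).trans_lt (max_lt (by omega) ?_)
    exact natDegree_mul_le.trans_lt (by omega)
  have hr00 : r₀ = 0 := eq_zero_of_dvd_of_natDegree_lt hr0d hr0deg
  rw [hr00, C_0, zero_add] at hred
  -- irreducibility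
  have hirr := kum (by omega : 1 ≤ d) hζ hF0 hNPF
  have hprime := hirr.prime
  have hmapd : ((X : (RatFunc K)[X]) ^ d - C (algebraMap K[X] (RatFunc K) F)) ∣
      P.map (algebraMap K[X] (RatFunc K)) * R.map (algebraMap K[X] (RatFunc K)) := by
    have h14 := congrArg (Polynomial.map (algebraMap K[X] (RatFunc K))) hred
    rw [Polynomial.map_mul, Polynomial.map_mul, Polynomial.map_sub, Polynomial.map_pow, map_X,
      map_C] at h14
    rw [h14]
    exact dvd_mul_right _ _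
  have hinj := Polynomial.map_injective (algebraMap K[X] (RatFunc K))
    (RatFunc.algebraMap_injective K)
  have hdegM : ((X : (RatFunc K)[X]) ^ d - C (algebraMap K[X] (RatFunc K) F)).degree = d :=
    degree_X_pow_sub_C (by omega) _
  have key : ∀ S : K[X][X], (∀ k, d ≤ k → S.coeff k = 0) →
      ((X : (RatFunc K)[X]) ^ d - C (algebraMap K[X] (RatFunc K) F)) ∣
        S.map (algebraMap K[X] (RatFunc K)) → S = 0 := by
    intro S hS hdv
    apply hinj
    rw [Polynomial.map_zero]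
    refine eq_zero_of_dvd_of_degree_lt hdv ?_
    rw [hdegM]
    refine (degree_map_le).trans_lt ?_
    rw [degree_lt_iff_coeff_zero]
    exact fun k hk => hS k (by exact_mod_cast hk)
  rcases hprime.dvd_or_dvd hmapd with h15 | h15
  · exact hP0 (key P hPd h15)
  · exact hR0 (key R hRd h15)

end Pool.Agent.P4f18dfZ
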